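import Pool.Agent.Helper77.SO.Stm5
import Pool.Agent.Helper18.SO.Sigf

set_option autoImplicit false

/-! Project SO (helper77), job DEG: the ordinates hit by off-line ordinates. -/

namespace Pool.Agent.Helper76.SO

open Filter Topology MeasureTheory Complex Finset
open Pool.Agent.Helper77.SO

noncomputable section

/-- one unit interval of ordinates -/
lemma OF_unit {F : ℂ → ℂ} (hF : H370.GoodL F) : ∃ C : ℝ, 1 ≤ C ∧ ∀ T : ℝ, 3 ≤ T → ∀ y : ℝ,
    (((OF F T).filter (fun x => y ≤ x ∧ x < y + 1)).card : ℝ) ≤ C * Real.log T := by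
  obtain ⟨C, hC, h⟩ := Pool.Agent.Helper18.SO.SF.unit_countF hF
  refine ⟨C, hC, fun T hT y => le_trans ?_ (h T hT y)⟩
  have h1 : (OF F T).filter (fun x => y ≤ x ∧ x < y + 1) ⊆
      ((ZrF F 1 T).filter (fun s => y ≤ s.im ∧ s.im < y + 1)).image Complex.im := by
    intro x hx
    rw [mem_filter] at hx
    unfold OF at hx
    obtain ⟨s, hs, hsx⟩ := mem_image.1 hx.1
    exact mem_image.2 ⟨s, mem_filter.2 ⟨hs, by rw [hsx]; exact hx.2⟩, hsx⟩
  have h2 : (((OF F T).filter (fun x => y ≤ x ∧ x < y + 1)).card : ℝ) ≤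
      (((ZrF F 1 T).filter (fun s => y ≤ s.im ∧ s.im < y + 1)).card : ℝ) := by
    exact_mod_cast (card_le_card h1).trans card_image_le
  refine h2.trans ?_
  rw [card_eq_sum_ones, Nat.cast_sum]
  refine sum_le_sum fun s hs => ?_
  have h3 := oF_pos hF (mem_filter.1 hs).1
  unfold mzF
  unfold oF at h3
  exact_mod_cast h3

/-- ordinates in intervals of length `N` -/
lemma OF_len {F : ℂ → ℂ} {C T : ℝ}
    (h : ∀ y : ℝ, (((OF F T).filter (fun x => y ≤ x ∧ x < y + 1)).card : ℝ) ≤ C * Real.log T)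
    (y : ℝ) (N : ℕ) :
    (((OF F T).filter (fun x => y ≤ x ∧ x < y + N)).card : ℝ) ≤ N * (C * Real.log T) := by
  induction N with
  | zero =>
    have h1 : (OF F T).filter (fun x => y ≤ x ∧ x < y + ((0 : ℕ) : ℝ)) = ∅ := by
      rw [filter_eq_empty_iff]
      intro x _ hx
      rw [Nat.cast_zero, add_zero] at hx
      exact absurd hx.2 (not_lt.2 hx.1)
    rw [h1]
    simp
  | succ N ih =>
    have h1 : (OF F T).filter (fun x => y ≤ x ∧ x < y + ((N + 1 : ℕ) : ℝ)) ⊆
        (OF F T).filter (fun x => y ≤ x ∧ x < y + N) ∪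
          (OF F T).filter (fun x => y + N ≤ x ∧ x < y + N + 1) := by
      intro x hx
      rw [mem_filter] at hx
      rw [mem_union, mem_filter, mem_filter]
      have h3 : x < y + N + 1 := by
        have := hx.2.2
        push_cast at this
        linarith
      rcases lt_or_ge x (y + N) with h2 | h2
      · exact Or.inl ⟨hx.1, hx.2.1, h2⟩
      · exact Or.inr ⟨hx.1, h2, h3⟩
    have h2 : (((OF F T).filter (fun x => y ≤ x ∧ x < y + ((N + 1 : ℕ) : ℝ))).card : ℝ) ≤
        (((OF F T).filter (fun x => y ≤ x ∧ x < y + N)).card : ℝ) +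
          (((OF F T).filter (fun x => y + N ≤ x ∧ x < y + N + 1)).card : ℝ) := by
      exact_mod_cast (card_le_card h1).trans (card_union_le _ _)
    have h3 := h (y + N)
    push_cast at h2 ⊢
    linarith

lemma OffL_neg {t : ℝ} (h : OffL t) : OffL (-t) := by
  obtain ⟨ρ, h1, h2, h3, h4, h5⟩ := h
  refine ⟨(starRingEnd ℂ) ρ, ?_, by simpa using h2, by simpa using h3, by simpa using h4,
    by simp [h5]⟩
  rw [riemannZeta_conj, h1, map_zero]

lemma OffL_neg_iff {t : ℝ} : OffL (-t) ↔ OffL t :=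
  ⟨fun h => by simpa using OffL_neg h, OffL_neg⟩

lemma mem_Off {u v t : ℝ} (hu : 1 ≤ u) (h1 : u < t) (h2 : t ≤ v) (h : OffL t) : t ∈ Off u v := by
  obtain ⟨ρ, g1, g2, g3, g4, g5⟩ := h
  unfold Off
  refine mem_image.2 ⟨ρ, mem_filter.2 ⟨(Pool.Agent.Helper77.SO.mem_Zr hu).2 ?_, g4⟩, g5⟩
  rw [g5]
  exact ⟨g2, g3, h1, h2, g1⟩

open Classical in
theorem deg_pos (hI : S_INT2) (F : ℂ → ℂ) (hF : H370.GoodL F) (b K ε : ℝ) (hb : 0 < b) (hb1 : b ≤ 1)
    (hK : 1 ≤ K) (hε : 0 < ε) : ∀ᶠ T : ℝ in atTop, ∀ c : ℝ, |c| ≤ K * T →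
    (((OF F T).filter (fun y => OffL (b * y + c))).card : ℝ) ≤
      0.16375 * (T * Real.log T / (2 * Real.pi)) + ε * (T * Real.log T) := by
  obtain ⟨C, hC1, hC⟩ := OF_unit hF
  obtain ⟨N, hN⟩ : ∃ N : ℕ, 2 / b < N := exists_nat_gt _
  filter_upwards [hI (K + 1) (ε / 2) (by linarith) (by linarith), eventually_ge_atTop 3,
    eventually_ge_atTop (2 * N * C / ε)] with T hT hT3 hTN c hc
  have hlT : 0 < Real.log T := Real.log_pos (by linarith)
  obtain ⟨u₁, hu₁⟩ : ∃ u : ℝ, u = max c 1 := ⟨_, rfl⟩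
  obtain ⟨u₂, hu₂⟩ : ∃ u : ℝ, u = max 1 (-c - b * T - 1) := ⟨_, rfl⟩
  obtain ⟨H₁, hH₁⟩ : ∃ H : ℝ, H = max 0 (c + b * T - u₁) := ⟨_, rfl⟩
  obtain ⟨H₂, hH₂⟩ : ∃ H : ℝ, H = max 0 (-c - b - u₂) := ⟨_, rfl⟩
  have hc' := abs_le.1 hc
  have hKT : 1 ≤ K * T := by nlinarith
  have hbT : b * T ≤ T := by nlinarith
  have hbT0 : 0 < b * T := by positivity
  have a1 : 1 ≤ u₁ := by rw [hu₁]; exact le_max_right _ _
  have a2 : c ≤ u₁ := by rw [hu₁]; exact le_max_left _ _
  have a3 : u₁ ≤ (K + 1) * T := by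
    rw [hu₁]
    exact max_le (by linarith) (by linarith)
  have b1 : 1 ≤ u₂ := by rw [hu₂]; exact le_max_left _ _
  have b2 : -c - b * T - 1 ≤ u₂ := by rw [hu₂]; exact le_max_right _ _
  have b3 : u₂ ≤ (K + 1) * T := by
    rw [hu₂]
    exact max_le (by linarith) (by linarith)
  have a4 : 0 ≤ H₁ := by rw [hH₁]; exact le_max_left _ _
  have a5 : H₁ ≤ T := by
    rw [hH₁]
    exact max_le (by linarith) (by linarith)
  have a6 : c + b * T ≤ u₁ + H₁ := by
    have := le_max_right 0 (c + b * T - u₁)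
    rw [← hH₁] at this
    linarith
  have b4 : 0 ≤ H₂ := by rw [hH₂]; exact le_max_left _ _
  have b5 : H₂ ≤ T := by
    rw [hH₂]
    refine max_le (by linarith) ?_
    have : (1 - b) * 1 ≤ (1 - b) * T := mul_le_mul_of_nonneg_left (by linarith) (by linarith)
    linarith
  have b6 : -c - b ≤ u₂ + H₂ := by
    have := le_max_right 0 (-c - b - u₂)
    rw [← hH₂] at this
    linarith
  obtain ⟨-, -, i1⟩ := hT u₁ H₁ a1 a3 a4 a5
  obtain ⟨-, -, i2⟩ := hT u₂ H₂ b1 b3 b4 b5
  -- the three parts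
  obtain ⟨S, hS⟩ : ∃ S : Finset ℝ, S = (OF F T).filter (fun y => OffL (b * y + c)) := ⟨_, rfl⟩
  rw [← hS]
  have memOF : ∀ y ∈ S, 1 < y ∧ y ≤ T ∧ OffL (b * y + c) := by
    intro y hy
    rw [hS, mem_filter] at hy
    unfold OF at hy
    obtain ⟨s, hs, rfl⟩ := mem_image.1 hy.1
    have := (mem_ZrF hF le_rfl).1 hs
    exact ⟨this.2.2.1, this.2.2.2.1, hy.2⟩
  have hinj : Function.Injective (fun y : ℝ => b * y + c) := by
    intro x y hxy
    have h1 : b * x = b * y := by
      have : b * x + c = b * y + c := hxy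
      linarith
    exact mul_left_cancel₀ hb.ne' h1
  have c1 : (S.filter (fun y => 1 < b * y + c)).card ≤ (Off u₁ (u₁ + H₁)).card := by
    refine card_le_card_of_injOn (fun y => b * y + c) ?_ hinj.injOn
    intro y hy
    rw [mem_coe, mem_filter] at hy
    obtain ⟨m1, m2, m3⟩ := memOF y hy.1
    rw [mem_coe]
    have hby : 0 < b * y := by positivity
    have hby2 : b * y ≤ b * T := mul_le_mul_of_nonneg_left m2 hb.le
    refine mem_Off a1 ?_ (by show b * y + c ≤ _; linarith) m3
    rw [hu₁]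
    exact max_lt (by show c < b * y + c; linarith) hy.2
  have c2 : (S.filter (fun y => b * y + c < -1)).card ≤ (Off u₂ (u₂ + H₂)).card := by
    refine card_le_card_of_injOn (fun y => -(b * y + c)) ?_ (neg_injective.comp hinj).injOn
    intro y hy
    rw [mem_coe, mem_filter] at hy
    obtain ⟨m1, m2, m3⟩ := memOF y hy.1
    rw [mem_coe]
    have hby : b * 1 ≤ b * y := mul_le_mul_of_nonneg_left m1.le hb.le
    have hby2 : b * y ≤ b * T := mul_le_mul_of_nonneg_left m2 hb.le
    refine mem_Off b1 ?_ (by show -(b * y + c) ≤ _; linarith) (OffL_neg m3)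
    rw [hu₂]
    exact max_lt (by show 1 < -(b * y + c); linarith [hy.2])
      (by show -c - b * T - 1 < -(b * y + c); linarith)
  have c3 : ((S.filter (fun y => ¬ (1 < b * y + c) ∧ ¬ (b * y + c < -1))).card : ℝ) ≤
      N * (C * Real.log T) := by
    refine le_trans ?_ (OF_len (hC T hT3) ((-1 - c) / b) N)
    have : S.filter (fun y => ¬ (1 < b * y + c) ∧ ¬ (b * y + c < -1)) ⊆
        (OF F T).filter (fun x => (-1 - c) / b ≤ x ∧ x < (-1 - c) / b + N) := by
      intro y hy
      rw [mem_filter, not_lt, not_lt] at hy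
      rw [hS, mem_filter] at hy
      rw [mem_filter]
      refine ⟨hy.1.1, ?_, ?_⟩
      · rw [div_le_iff₀ hb]
        linarith [hy.2.2]
      · have h1 : y ≤ (-1 - c) / b + 2 / b := by
          rw [← add_div, le_div_iff₀ hb]
          linarith [hy.2.1]
        linarith
    exact_mod_cast card_le_card this
  have c4 : S.card ≤ (S.filter (fun y => 1 < b * y + c)).card +
      ((S.filter (fun y => b * y + c < -1)).card +
      (S.filter (fun y => ¬ (1 < b * y + c) ∧ ¬ (b * y + c < -1))).card) := by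
    have h1 : S ⊆ S.filter (fun y => 1 < b * y + c) ∪ (S.filter (fun y => b * y + c < -1) ∪
        S.filter (fun y => ¬ (1 < b * y + c) ∧ ¬ (b * y + c < -1))) := by
      intro y hy
      rw [mem_union, mem_union, mem_filter, mem_filter, mem_filter]
      tauto
    refine (card_le_card h1).trans ((card_union_le _ _).trans ?_)
    exact Nat.add_le_add_left (card_union_le _ _) _
  have c4' : (S.card : ℝ) ≤ ((S.filter (fun y => 1 < b * y + c)).card : ℝ) +
      (((S.filter (fun y => b * y + c < -1)).card : ℝ) +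
      ((S.filter (fun y => ¬ (1 < b * y + c) ∧ ¬ (b * y + c < -1))).card : ℝ)) := by
    exact_mod_cast c4
  have hNC : N * (C * Real.log T) ≤ ε / 2 * (T * Real.log T) := by
    have h1 : N * C ≤ ε / 2 * T := by
      have h2 := (div_le_iff₀ hε).1 hTN
      linarith
    have h2 := mul_le_mul_of_nonneg_right h1 hlT.le
    linarith
  have hpi := Real.pi_pos
  have key : ((S.filter (fun y => 1 < b * y + c)).card : ℝ) +
      ((S.filter (fun y => b * y + c < -1)).card : ℝ) ≤
      0.16375 * (T * Real.log T / (2 * Real.pi)) + ε / 2 * (T * Real.log T) := by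
    have d1 : ((S.filter (fun y => 1 < b * y + c)).card : ℝ) ≤ ((Off u₁ (u₁ + H₁)).card : ℝ) := by
      exact_mod_cast c1
    have d2 : ((S.filter (fun y => b * y + c < -1)).card : ℝ) ≤ ((Off u₂ (u₂ + H₂)).card : ℝ) := by
      exact_mod_cast c2
    have hTl : 0 ≤ T * Real.log T := by positivity
    have mono : ∀ H : ℝ, H ≤ T → H * Real.log T / (2 * Real.pi) ≤ T * Real.log T / (2 * Real.pi) := by
      intro H hH
      exact div_le_div_of_nonneg_right (mul_le_mul_of_nonneg_right hH hlT.le) (by positivity)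
    by_cases e1 : (S.filter (fun y => 1 < b * y + c)).card = 0
    · rw [e1, Nat.cast_zero, zero_add]
      have := mono H₂ b5
      linarith
    · by_cases e2 : (S.filter (fun y => b * y + c < -1)).card = 0
      · rw [e2, Nat.cast_zero, add_zero]
        have := mono H₁ a5
        linarith
      · obtain ⟨y, hy⟩ := card_pos.1 (Nat.pos_of_ne_zero e1)
        obtain ⟨z, hz⟩ := card_pos.1 (Nat.pos_of_ne_zero e2)
        rw [mem_filter] at hy hz
        obtain ⟨m1, m2, m3⟩ := memOF y hy.1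
        obtain ⟨n1, n2, n3⟩ := memOF z hz.1
        have hby2 : b * y ≤ b * T := mul_le_mul_of_nonneg_left m2 hb.le
        have hbz : b * 1 ≤ b * z := mul_le_mul_of_nonneg_left n1.le hb.le
        have g1 : H₁ ≤ c + b * T - 1 := by
          rw [hH₁]
          exact max_le (by linarith [hy.2]) (by linarith)
        have g2 : H₂ ≤ -c - b - 1 := by
          rw [hH₂]
          exact max_le (by linarith [hz.2]) (by linarith)
        have g3 : H₁ + H₂ ≤ T := by linarith
        have g4 := mono _ g3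
        rw [add_mul, add_div] at g4
        linarith
  linarith

theorem j_DEG : J_DEG := by
  classical
  intro hI F hF b K ε hb hb1 hK hε
  rcases lt_or_gt_of_ne hb with h | h
  · have h1 := deg_pos hI F hF (-b) K ε (by linarith) (by rw [abs_of_neg h] at hb1; exact hb1) hK hε
    filter_upwards [h1] with T hT c hc
    have h2 := hT (-c) (by rwa [abs_neg])
    refine le_trans ?_ h2
    refine Nat.cast_le.2 (card_le_card fun y hy => ?_)
    rw [mem_filter] at hy ⊢
    refine ⟨hy.1, ?_⟩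
    rw [show -b * y + -c = -(b * y + c) by ring]
    exact OffL_neg hy.2
  · exact deg_pos hI F hF b K ε h (by rw [abs_of_pos h] at hb1; exact hb1) hK hε

end

end Pool.Agent.Helper76.SO
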